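import Pool.Agent.Q96.DV.Main

/-!
# MP_d88dfe_an: Devron property for the three-dimensional pentagram map

The map `F` sends a polygon `A` in the real projective space of dimension three to the polygon whose
`i`-th vertex is the intersection of the line through `A_{i-1}, A_{i+1}` with the plane through
`A_{i-2}, A_i, A_{i+2}` (`IsImage`, `IsIterate` for the iterates). If `A` is `2n`-periodic, `n ≥ 4`,
its faces pass alternately through two points `P`, `Q`, and `B = F^{n-3}(A)` is defined, then the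
vertices of `B` with odd index lie in one plane, and so do the vertices with even index. No
genericity is assumed: only that the iterates are defined.
-/

set_option autoImplicit false

namespace Pool.Agent.Results.MP_d88dfe_an.Devron

open Module Q96.DV

theorem result : ∀ n : ℕ, 4 ≤ n → ∀ A B : ℤ → Pt, (∀ i, A (i + 2 * n) = A i) →
    (∃ P Q : Pt, (∀ i, Even i → P.submodule ≤ face A i) ∧
      (∀ i, Odd i → Q.submodule ≤ face A i)) →
    IsIterate (n - 3) A B →
    (∃ H : Submodule ℝ (Fin 4 → ℝ), finrank ℝ H = 3 ∧ ∀ i, Odd i → (B i).submodule ≤ H) ∧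
    (∃ H : Submodule ℝ (Fin 4 → ℝ), finrank ℝ H = 3 ∧ ∀ i, Even i → (B i).submodule ≤ H) := by
  rintro n hn A B hA ⟨P, Q, hP, hQ⟩ hB
  obtain ⟨H0, h0, h0'⟩ := main hn hA hP hQ hB (r := 0) (by omega)
  obtain ⟨H1, h1, h1'⟩ := main hn hA hP hQ hB (r := 1) (by omega)
  have k0 : ∀ j : ℤ, (∃ i : ℤ, j = 2 * i + (0 : ℕ) + ((n - 3 : ℕ) : ℤ)) → (B j).submodule ≤ H0 := by
    rintro j ⟨i, rfl⟩; exact h0' i
  have k1 : ∀ j : ℤ, (∃ i : ℤ, j = 2 * i + (1 : ℕ) + ((n - 3 : ℕ) : ℤ)) → (B j).submodule ≤ H1 := by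
    rintro j ⟨i, rfl⟩; exact h1' i
  rcases Nat.even_or_odd' (n - 3) with ⟨m, hm | hm⟩
  · refine ⟨⟨H1, h1, fun j hj => k1 j ?_⟩, ⟨H0, h0, fun j hj => k0 j ?_⟩⟩
    · obtain ⟨k, rfl⟩ := hj
      exact ⟨k - m, by rw [hm]; push_cast; ring⟩
    · obtain ⟨k, rfl⟩ := hj
      exact ⟨k - m, by rw [hm]; push_cast; ring⟩
  · refine ⟨⟨H0, h0, fun j hj => k0 j ?_⟩, ⟨H1, h1, fun j hj => k1 j ?_⟩⟩
    · obtain ⟨k, rfl⟩ := hj
      exact ⟨k - m, by rw [hm]; push_cast; ring⟩
    · obtain ⟨k, rfl⟩ := hj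
      exact ⟨k - m - 1, by rw [hm]; push_cast; ring⟩

end Pool.Agent.Results.MP_d88dfe_an.Devron
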